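import Pool.Agent.K1H77.PA.Stm

/-! # PA13: irreducible monoids, reduction to the group case -/

set_option autoImplicit false

open Module

namespace Pool.Agent.K1H20.PA

open Pool.Agent.K1H77.PA

section burnside

variable {L V : Type} [Field L] [IsAlgClosed L] [AddCommGroup V] [Module L V]
  [FiniteDimensional L V] [Nontrivial V]

/-- Burnside's theorem. -/
theorem burnside (S : Submonoid (End L V))
    (hS : ∀ U : Submodule L V, (∀ s ∈ S, ∀ u ∈ U, s u ∈ U) → U = ⊥ ∨ U = ⊤) :
    Submodule.span L (S : Set (End L V)) = ⊤ := by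
  classical
  set A : Subalgebra L (End L V) := Algebra.adjoin L (S : Set (End L V)) with hA
  have hAs : Subalgebra.toSubmodule A = Submodule.span L (S : Set (End L V)) := by
    rw [hA, Algebra.adjoin_eq_span, Submonoid.closure_eq]
  have hst : ∀ W : Submodule L V, (∀ a ∈ A, ∀ w ∈ W, a w ∈ W) → W = ⊥ ∨ W = ⊤ := by
    intro W hW
    exact hS W fun s hs u hu => hW s (Algebra.subset_adjoin hs) u hu
  have hsimple : IsSimpleModule A V := by
    have : IsSimpleOrder (Submodule A V) :=
      { exists_pair_ne := ⟨⊥, ⊤, bot_ne_top⟩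
        eq_bot_or_eq_top := fun W => by
          have h1 := hst (W.restrictScalars L) (fun a ha w hw => W.smul_mem (⟨a, ha⟩ : A) hw)
          rcases h1 with h | h
          · left
            exact (Submodule.restrictScalars_eq_bot_iff _ _ _).1 h
          · right
            exact (Submodule.restrictScalars_eq_top_iff _ _ _).1 h }
    exact {}
  have hEnd : ∀ E : Module.End A V, ∃ k : L, ∀ v, E v = k • v := by
    intro E
    have hK : ∀ (k : L) (v : V), E (k • v) = k • E v := by
      intro k v
      have := E.map_smul (algebraMap L A k) v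
      simpa using this
    let E' : Module.End L V :=
      { toFun := E
        map_add' := E.map_add
        map_smul' := hK }
    obtain ⟨k, hk⟩ := Module.End.exists_eigenvalue E'
    refine ⟨k, ?_⟩
    have h1 := hst (E'.eigenspace k) (fun a ha w hw => by
      rw [Module.End.mem_eigenspace_iff] at hw ⊢
      have h2 : E' (a w) = a (E' w) := E.map_smul (⟨a, ha⟩ : A) w
      rw [h2, hw, map_smul])
    have h2 : E'.eigenspace k = ⊤ := h1.resolve_left hk
    intro v
    have h3 : v ∈ E'.eigenspace k := by
      rw [h2]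
      exact Submodule.mem_top
    exact Module.End.mem_eigenspace_iff.1 h3
  rw [← hAs, eq_top_iff]
  intro F _
  let F' : Module.End (Module.End A V) V :=
    { toFun := F
      map_add' := F.map_add
      map_smul' := fun E v => by
        obtain ⟨k, hk⟩ := hEnd E
        simp only [Module.End.smul_def, RingHom.id_apply]
        rw [hk, hk, F.map_smul] }
  obtain ⟨s, hs⟩ := Module.Finite.fg_top (R := L) (M := V)
  obtain ⟨a, ha⟩ := jacobson_density (R := A) F' s
  have h1 : F = a.1 := by
    refine LinearMap.ext fun v => ?_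
    have hv : v ∈ Submodule.span L (s : Set V) := by
      rw [hs]
      exact Submodule.mem_top
    induction hv using Submodule.span_induction with
    | mem x hx => exact ha x hx
    | zero => rw [map_zero, map_zero]
    | add a b _ _ ha hb => rw [map_add, map_add, ha, hb]
    | smul c a _ ha => rw [map_smul, map_smul, ha]
  rw [h1]
  exact a.2

end burnside

variable {L V : Type} [Field L] [AddCommGroup V] [Module L V] [FiniteDimensional L V]

/-- the compression of `t` to the range of `g` -/
noncomputable def cmp (g : End L V) : End L V →ₗ[L] End L (LinearMap.range g) where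
  toFun t := (g.rangeRestrict ∘ₗ t) ∘ₗ (LinearMap.range g).subtype
  map_add' a b := by
    ext x
    simp
  map_smul' c a := by
    ext x
    simp

theorem cmp_apply (g t : End L V) (u : LinearMap.range g) : ((cmp g t u : LinearMap.range g) : V) =
    g (t u) := rfl

theorem cmp_mul (g s t : End L V) : cmp g s * cmp g t = cmp g (s * g * t) := by
  ext u
  rw [Module.End.mul_apply, cmp_apply, cmp_apply, cmp_apply]
  rfl

theorem cmp_surj (g : End L V) (hg : Function.Surjective (cmp g 1)) :
    Function.Surjective (cmp g) := by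
  intro h
  obtain ⟨k, hk⟩ := LinearMap.exists_rightInverse_of_surjective (cmp g 1)
    (LinearMap.range_eq_top.2 hg)
  obtain ⟨t, ht⟩ := LinearMap.exists_extend ((LinearMap.range g).subtype ∘ₗ k ∘ₗ h)
  refine ⟨t, ?_⟩
  ext u
  have h1 : t u = k (h u) := LinearMap.congr_fun ht u
  rw [cmp_apply, h1]
  have h2 : cmp g 1 (k (h u)) = h u := LinearMap.congr_fun hk (h u)
  have h3 := congrArg Subtype.val h2
  exact h3

theorem t_B1 (h : S_B1G) : S_B1 := by
  intro L V _ _ _ _ _ _ S hirr G hG heig
  classical
  have hspan := burnside S hirr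
  -- an element of minimal rank
  have hex : ∃ r : ℕ, ∃ g ∈ S, g ≠ 0 ∧ finrank L (LinearMap.range g) = r :=
    ⟨_, 1, S.one_mem, one_ne_zero, rfl⟩
  obtain ⟨g₀, hgS₀, hg0₀, hgr₀⟩ := Nat.find_spec hex
  set r := Nat.find hex with hr
  have hmin : ∀ s ∈ S, s ≠ 0 → r ≤ finrank L (LinearMap.range s) := fun s hs hs0 =>
    Nat.find_min' hex ⟨s, hs, hs0, rfl⟩
  -- `g₀ t g₀ ≠ 0`
  obtain ⟨t, htS, ht0⟩ : ∃ t ∈ S, g₀ * t * g₀ ≠ 0 := by
    by_contra hcon
    push Not at hcon
    have h1 : ∀ t : End L V, g₀ * t * g₀ = 0 := by
      intro t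
      have ht : t ∈ Submodule.span L (S : Set (End L V)) := by
        rw [hspan]
        exact Submodule.mem_top
      induction ht using Submodule.span_induction with
      | mem x hx => exact hcon x hx
      | zero => simp
      | add a b _ _ ha hb => rw [mul_add, add_mul, ha, hb, add_zero]
      | smul c a _ ha => rw [mul_smul_comm, smul_mul_assoc, ha, smul_zero]
    apply hg0₀
    ext x
    by_contra hx
    have hx' : g₀ x ≠ 0 := hx
    obtain ⟨φ, hφ⟩ : ∃ φ : Dual L V, φ (g₀ x) ≠ 0 := by
      by_contra hc
      push Not at hc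
      exact hx' ((Module.forall_dual_apply_eq_zero_iff L (g₀ x)).1 hc)
    have h2 := LinearMap.congr_fun (h1 (φ.smulRight x)) x
    have h3 : φ (g₀ x) • g₀ x = 0 := by
      have h4 : (g₀ * φ.smulRight x * g₀ : End L V) x = φ (g₀ x) • g₀ x := by
        rw [Module.End.mul_apply, Module.End.mul_apply, LinearMap.smulRight_apply, map_smul]
      rw [← h4]
      exact h2
    rcases smul_eq_zero.1 h3 with h4 | h4
    · exact hφ h4
    · exact hx' h4
  set g : End L V := g₀ * t with hg
  have hgS : g ∈ S := S.mul_mem hgS₀ htS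
  have hgg : g * g₀ ≠ 0 := ht0
  have hg0 : g ≠ 0 := fun h0 => hgg (by rw [h0, zero_mul])
  have hrange : LinearMap.range g = LinearMap.range g₀ := by
    apply Submodule.eq_of_le_of_finrank_le
    · rintro _ ⟨x, rfl⟩
      exact ⟨t x, rfl⟩
    · rw [hgr₀]
      exact hmin g hgS hg0
  have hgr : finrank L (LinearMap.range g) = r := by rw [hrange, hgr₀]
  -- elements of `S` compressed
  have hsurj : ∀ s ∈ S, cmp g s ≠ 0 → Function.Surjective (cmp g s) := by
    intro s hs hs0
    have h1 : g * s * g ≠ 0 := by
      intro h0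
      apply hs0
      ext u
      obtain ⟨x, hx⟩ := u.2
      rw [cmp_apply, ← hx]
      exact LinearMap.congr_fun h0 x
    have h2 : LinearMap.range (g * s * g) = LinearMap.range g := by
      apply Submodule.eq_of_le_of_finrank_le
      · rintro _ ⟨x, rfl⟩
        exact ⟨s (g x), rfl⟩
      · rw [hgr]
        exact hmin _ (S.mul_mem (S.mul_mem hgS hs) hgS) h1
    intro u
    have h3 : (u : V) ∈ LinearMap.range (g * s * g) := by
      rw [h2]
      exact u.2
    obtain ⟨x, hx⟩ := h3
    refine ⟨⟨g x, x, rfl⟩, ?_⟩
    ext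
    rw [cmp_apply, ← hx]
    rfl
  have hone : cmp g 1 ≠ 0 := by
    intro h0
    apply hgg
    ext x
    have h1 : g₀ x ∈ LinearMap.range g := by
      rw [hrange]
      exact ⟨x, rfl⟩
    have h2 := congrArg Subtype.val (LinearMap.congr_fun h0 ⟨g₀ x, h1⟩)
    exact h2
  have hsur1 := cmp_surj g (hsurj 1 S.one_mem hone)
  have hnt : Nontrivial (LinearMap.range g) := by
    by_contra hc
    rw [not_nontrivial_iff_subsingleton] at hc
    apply hone
    ext u
    exact congrArg Subtype.val (Subsingleton.elim _ _)
  let D : TData L (LinearMap.range g) :=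
    { T :=
        { carrier := {θ | θ ≠ 0 ∧ ∃ s ∈ S, cmp g s = θ}
          mul_mem' := by
            rintro _ _ ⟨h1, s, hs, rfl⟩ ⟨h2, s', hs', rfl⟩
            refine ⟨?_, s * g * s', S.mul_mem (S.mul_mem hs hgS) hs', (cmp_mul g s s').symm⟩
            intro h0
            obtain ⟨v, hv⟩ := exists_ne (0 : LinearMap.range g)
            obtain ⟨w, rfl⟩ := hsurj s hs h1 v
            obtain ⟨z, rfl⟩ := hsurj s' hs' h2 w
            exact hv (LinearMap.congr_fun h0 z) }
      G := G
      fg := hG
      unit := by
        rintro _ ⟨h1, s, hs, rfl⟩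
        exact (LinearMap.isUnit_iff_range_eq_top _).2 (LinearMap.range_eq_top.2 (hsurj s hs h1))
      span := by
        have h1 : Submodule.span L (cmp g '' (S : Set (End L V))) = ⊤ := by
          rw [← Submodule.map_span, hspan, Submodule.map_top, LinearMap.range_eq_top]
          exact hsur1
        rw [eq_top_iff, ← h1, Submodule.span_le]
        rintro _ ⟨s, hs, rfl⟩
        by_cases h0 : cmp g s = 0
        · rw [h0]
          exact Submodule.zero_mem _
        · exact Submodule.subset_span ⟨h0, s, hs, rfl⟩
      eig := by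
        rintro _ ⟨h1, s, hs, rfl⟩ c hc
        obtain ⟨v, hv⟩ := hc.exists_hasEigenvector
        refine heig (g * s) (S.mul_mem hgS hs) c ?_
        refine Module.End.hasEigenvalue_of_hasEigenvector (x := (v : V)) ⟨?_, ?_⟩
        · rw [Module.End.mem_eigenspace_iff]
          have h2 := congrArg Subtype.val hv.apply_eq_smul
          exact h2
        · intro h0
          exact hv.2 (Subtype.ext h0) }
  obtain ⟨H, hH, v, φ, hv, hφ, hT⟩ := h L (LinearMap.range g) D
  refine ⟨H, hH, (v : V), φ ∘ₗ g.rangeRestrict, ?_, ?_, ?_⟩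
  · intro h0
    exact hv (Subtype.ext h0)
  · intro h0
    apply hφ
    ext u
    obtain ⟨x, hx⟩ := u.2
    have h1 := LinearMap.congr_fun h0 x
    have h2 : g.rangeRestrict x = u := Subtype.ext hx
    rw [LinearMap.comp_apply, h2] at h1
    exact h1
  · intro s hs
    by_cases h0 : cmp g s = 0
    · left
      have h1 := LinearMap.congr_fun h0 v
      have h2 : (φ ∘ₗ g.rangeRestrict) (s v) = φ (cmp g s v) := rfl
      rw [h2, h1]
      exact map_zero φ
    · exact hT _ ⟨h0, s, hs, rfl⟩

end Pool.Agent.K1H20.PA
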